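import Mathlib

/-!
# MP_63137b_co, Q1: universal derivations do not localize

Over every field of characteristic zero, the irreducible arrangement of the planes
`x_i = 0` (multiplicity 2) and `x_i = x_j` (multiplicity 1) in `K³` has the universal derivation
`∑ x_i² ∂_i`, but its localization at the line `x_1 = 0, x_2 = x_3` has none.
-/

set_option autoImplicit false

namespace Pool.Agent.Results.MP_63137b_co.Counterexample

open MvPolynomial

/-! ### Definitions -/

section defs

variable {K : Type} [Field K]

/-- A multiarrangement in `K^n`: finitely many hyperplanes, each given by a linear form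
`∑ i, form H i * x_i`, with pairwise different kernels, and a multiplicity for each of them. -/
structure MultiArr (K : Type) [Field K] (n : ℕ) where
  ι : Type
  fin : Fintype ι
  form : ι → Fin n → K
  ne_zero : ∀ H, form H ≠ 0
  distinct : ∀ H H' : ι, (∀ v : Fin n → K, form H ⬝ᵥ v = 0 ↔ form H' ⬝ᵥ v = 0) → H = H'
  mult : ι → ℕ

/-- the hyperplane `H`, as a subspace of `K^n` -/
def MultiArr.hyp {n : ℕ} (A : MultiArr K n) (H : A.ι) : Submodule K (Fin n → K) where
  carrier := {v | A.form H ⬝ᵥ v = 0}
  zero_mem' := by simp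
  add_mem' := by
    intro a b ha hb
    simp only [Set.mem_ofPred_eq] at ha hb ⊢
    rw [dotProduct_add, ha, hb, add_zero]
  smul_mem' := by
    intro c a ha
    simp only [Set.mem_ofPred_eq] at ha ⊢
    rw [dotProduct_smul, ha, smul_zero]

/-- Derivations of the polynomial ring `S` in `n` variables: `θ` stands for `∑ i, θ i ∂_i`. -/
abbrev Der (K : Type) [Field K] (n : ℕ) : Type := Fin n → MvPolynomial (Fin n) K

/-- the linear form with coefficient vector `a`, as a polynomial -/
noncomputable def lin {n : ℕ} (a : Fin n → K) : MvPolynomial (Fin n) K := ∑ i, C (a i) * X i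

/-- the value `θ(α)` of the derivation `θ` at the linear form `α` with coefficient vector `a` -/
noncomputable def appl {n : ℕ} (θ : Der K n) (a : Fin n → K) : MvPolynomial (Fin n) K :=
  ∑ i, C (a i) * θ i

/-- `θ ∈ D(A, m)`: `θ(α_H)` is divisible by `α_H ^ m(H)` for every hyperplane `H`. -/
def MemD {n : ℕ} (A : MultiArr K n) (m : A.ι → ℕ) (θ : Der K n) : Prop :=
  ∀ H, lin (A.form H) ^ m H ∣ appl θ (A.form H)

/-- `∇_φ θ = ∑ i, φ(θ i) ∂_i`, where `φ(f) = ∑ j, φ j * ∂f/∂x_j` -/
noncomputable def nabla {n : ℕ} (φ θ : Der K n) : Der K n := fun i => ∑ j, φ j * pderiv j (θ i)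

/-- `θ` is homogeneous: all its coefficients are homogeneous of one and the same degree. -/
def IsHomog {n : ℕ} (θ : Der K n) : Prop := ∃ d : ℕ, ∀ i, (θ i).IsHomogeneous d

/-- `θ` is `m`-universal: `θ` is a homogeneous element of `D(A, m + 1)` and `φ ↦ ∇_φ θ` is
a bijection from the module of all derivations to `D(A, m)` (this map is `S`-linear). -/
def IsMUniversal {n : ℕ} (A : MultiArr K n) (m : A.ι → ℕ) (θ : Der K n) : Prop :=
  IsHomog θ ∧ MemD A (fun H => m H + 1) θ ∧ Function.Injective (fun φ : Der K n => nabla φ θ) ∧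
    ∀ η : Der K n, MemD A m η ↔ ∃ φ : Der K n, nabla φ θ = η

/-- the multiarrangement `A` (with its multiplicity `μ`, which should be at least one) admits
a universal derivation: a homogeneous `θ ∈ D(A, μ)` which is `(μ - 1)`-universal -/
def AdmitsUniversal {n : ℕ} (A : MultiArr K n) : Prop :=
  ∃ θ : Der K n, IsHomog θ ∧ MemD A A.mult θ ∧ IsMUniversal A (fun H => A.mult H - 1) θ

/-- `X` is an intersection of hyperplanes of `A`. -/
def IsFlat {n : ℕ} (A : MultiArr K n) (X : Submodule K (Fin n → K)) : Prop :=
  ∃ T : Set A.ι, X = ⨅ H ∈ T, A.hyp H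

/-- `B` is the localization `(A_X, μ_X)` in the quotient space `K^n / X`, written in some linear
coordinates of this quotient space: `π` is a surjection `K^n → K^r` with kernel `X`, the hyperplanes
of `B` correspond to those hyperplanes of `A` that contain `X`, with the forms and the
multiplicities of `A`. -/
def IsLocalization {n r : ℕ} (A : MultiArr K n) (X : Submodule K (Fin n → K))
    (B : MultiArr K r) : Prop :=
  ∃ (π : (Fin n → K) →ₗ[K] (Fin r → K)) (e : B.ι ≃ {H : A.ι // X ≤ A.hyp H}),
    Function.Surjective π ∧ LinearMap.ker π = X ∧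
    (∀ H v, B.form H ⬝ᵥ π v = A.form (e H).1 ⬝ᵥ v) ∧ ∀ H, B.mult H = A.mult (e H).1

/-- `A` is irreducible: the space is not a direct sum of two nonzero subspaces such that every
hyperplane contains one of them. -/
def IsIrreducible {n : ℕ} (A : MultiArr K n) : Prop :=
  ∀ V₁ V₂ : Submodule K (Fin n → K), IsCompl V₁ V₂ → (∀ H, V₁ ≤ A.hyp H ∨ V₂ ≤ A.hyp H) →
    V₁ = ⊥ ∨ V₂ = ⊥

end defs

/-! ### The arrangement -/

section example_

variable (K : Type) [Field K] [CharZero K]

/-- coefficient vectors of the six forms `x₀, x₁, x₂, x₀ - x₁, x₀ - x₂, x₁ - x₂` -/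
def forms : Fin 6 → Fin 3 → K :=
  ![![1, 0, 0], ![0, 1, 0], ![0, 0, 1], ![1, -1, 0], ![1, 0, -1], ![0, 1, -1]]

/-- The arrangement of the counterexample. -/
def arr : MultiArr K 3 where
  ι := Fin 6
  fin := inferInstance
  form := forms K
  ne_zero := by
    intro H h
    have h0 := congrFun h 0
    have h1 := congrFun h 1
    have h2 := congrFun h 2
    fin_cases H <;> simp [forms] at h0 h1 h2
  distinct := by
    intro H H' h
    have key : ∀ v : Fin 3 → K, (forms K H 0 * v 0 + forms K H 1 * v 1 + forms K H 2 * v 2 = 0 ↔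
        forms K H' 0 * v 0 + forms K H' 1 * v 1 + forms K H' 2 * v 2 = 0) := by
      intro v
      have := h v
      simpa [dotProduct, Fin.sum_univ_three] using this
    have a1 := key ![0, 1, 2]
    have a2 := key ![1, 0, 2]
    have a3 := key ![1, 2, 0]
    have a4 := key ![1, 1, 2]
    have a5 := key ![1, 2, 1]
    have a6 := key ![1, 2, 2]
    have h12 : (1 : K) + -2 ≠ 0 := by norm_num
    have h21 : (2 : K) + -1 ≠ 0 := by norm_num
    fin_cases H <;> fin_cases H' <;>
      first
        | rfl
        | (exfalso; simp [forms] at a1 a2 a3 a4 a5 a6; done)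
        | (exfalso; simp [forms, h12, h21] at a1 a2 a3 a4 a5 a6)
  mult := ![2, 2, 2, 1, 1, 1]

/-- the universal derivation `∑ x_i² ∂_i` -/
noncomputable def theta : Der K 3 := fun i => X i ^ 2

omit [CharZero K] in
lemma theta_homog : IsHomog (theta K) := ⟨2, fun i => (isHomogeneous_X K i).pow 2⟩

lemma memD_theta : MemD (arr K) (arr K).mult (theta K) := by
  intro H
  change Fin 6 at H
  fin_cases H
  · simp [arr, forms, lin, appl, theta, Fin.sum_univ_three]
  · simp [arr, forms, lin, appl, theta, Fin.sum_univ_three]
  · simp [arr, forms, lin, appl, theta, Fin.sum_univ_three]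
  · simp only [arr, forms, lin, appl, theta, Fin.sum_univ_three]
    refine ⟨X 0 + X 1, ?_⟩
    simp
    ring
  · simp only [arr, forms, lin, appl, theta, Fin.sum_univ_three]
    refine ⟨X 0 + X 2, ?_⟩
    simp
    ring
  · simp only [arr, forms, lin, appl, theta, Fin.sum_univ_three]
    refine ⟨X 1 + X 2, ?_⟩
    simp
    ring

lemma nabla_theta (φ : Der K 3) (i : Fin 3) : nabla φ (theta K) i = C 2 * X i * φ i := by
  unfold nabla theta
  rw [Finset.sum_eq_single i]
  · rw [pderiv_pow, pderiv_X_self]
    simp only [map_ofNat]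
    ring
  · intro j _ hj
    rw [pderiv_pow, pderiv_X_of_ne (Ne.symm hj)]
    simp
  · simp

lemma admits : AdmitsUniversal (arr K) := by
  refine ⟨theta K, theta_homog K, memD_theta K, theta_homog K, ?_, ?_, ?_⟩
  · have h : (fun H => (arr K).mult H - 1 + 1) = (arr K).mult := by
      funext H
      change Fin 6 at H
      fin_cases H <;> rfl
    rw [h]
    exact memD_theta K
  · intro φ ψ h
    funext i
    have h1 := congrFun h i
    simp only [nabla_theta] at h1
    have h2 : (C 2 * X i : MvPolynomial (Fin 3) K) ≠ 0 := by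
      refine mul_ne_zero ?_ (X_ne_zero i)
      rw [Ne, C_eq_zero]
      norm_num
    exact mul_left_cancel₀ h2 h1
  · intro η
    constructor
    · intro h
      have h3 : ∀ i : Fin 3, (X i : MvPolynomial (Fin 3) K) ∣ η i := by
        intro i
        fin_cases i
        · have := h (0 : Fin 6)
          simpa [arr, forms, lin, appl, Fin.sum_univ_three] using this
        · have := h (1 : Fin 6)
          simpa [arr, forms, lin, appl, Fin.sum_univ_three] using this
        · have := h (2 : Fin 6)
          simpa [arr, forms, lin, appl, Fin.sum_univ_three] using this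
      choose ψ hψ using h3
      refine ⟨fun i => C (1 / 2) * ψ i, ?_⟩
      funext i
      rw [nabla_theta, hψ i]
      have : (C 2 * C (1 / 2) : MvPolynomial (Fin 3) K) = 1 := by
        rw [← C_mul]
        norm_num
      calc C 2 * X i * (C (1 / 2) * ψ i) = (C 2 * C (1 / 2)) * (X i * ψ i) := by ring
        _ = X i * ψ i := by rw [this, one_mul]
    · rintro ⟨φ, rfl⟩ H
      change Fin 6 at H
      fin_cases H
      · simp only [arr, forms, lin, appl, Fin.sum_univ_three, nabla_theta]
        refine ⟨C 2 * φ 0, ?_⟩
        simp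
        ring
      · simp only [arr, forms, lin, appl, Fin.sum_univ_three, nabla_theta]
        refine ⟨C 2 * φ 1, ?_⟩
        simp
        ring
      · simp only [arr, forms, lin, appl, Fin.sum_univ_three, nabla_theta]
        refine ⟨C 2 * φ 2, ?_⟩
        simp
        ring
      · simp [arr]
      · simp [arr]
      · simp [arr]

lemma arr_irreducible : IsIrreducible (arr K) := by
  intro V₁ V₂ hc hV
  have hH : ∀ (H : Fin 6) (v : Fin 3 → K), v ∈ (arr K).hyp H ↔
      forms K H 0 * v 0 + forms K H 1 * v 1 + forms K H 2 * v 2 = 0 := by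
    intro H v
    change forms K H ⬝ᵥ v = 0 ↔ _
    simp [dotProduct, Fin.sum_univ_three]
  -- the sets of coordinates vanishing
  have key : ∀ (U W : Submodule K (Fin 3 → K)), IsCompl U W →
      (∀ H, U ≤ (arr K).hyp H ∨ W ≤ (arr K).hyp H) → U ≤ (arr K).hyp (0 : Fin 6) → U = ⊥ := by
    intro U W hc hV h0
    have hU0 : ∀ v ∈ U, v 0 = 0 := by
      intro v hv
      have := (hH 0 v).mp (h0 hv)
      simpa [forms] using this
    -- a coordinate vanishing on `W` leads to a contradiction
    have hex : ∀ v : Fin 3 → K, ∃ u ∈ U, ∃ w ∈ W, u + w = v := by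
      intro v
      have : v ∈ U ⊔ W := by rw [hc.sup_eq_top]; trivial
      exact Submodule.mem_sup.mp this
    have h1 : ∀ v ∈ U, v 1 = 0 := by
      rcases hV (3 : Fin 6) with h | h
      · intro v hv
        have h2 := (hH 3 v).mp (h hv)
        have h3 := hU0 v hv
        simp [forms, h3] at h2
        exact h2
      · rcases hV (1 : Fin 6) with h' | h'
        · intro v hv
          have := (hH 1 v).mp (h' hv)
          simpa [forms] using this
        · exfalso
          obtain ⟨u, hu, w, hw, huw⟩ := hex ![1, 0, 0]
          have h2 := (hH 3 w).mp (h hw)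
          have h3 := (hH 1 w).mp (h' hw)
          have h4 := hU0 u hu
          have h5 := congrFun huw 0
          simp [forms] at h2 h3 h5
          rw [h3] at h2
          rw [h4] at h5
          simp at h2
          rw [h2] at h5
          simp at h5
    have h2 : ∀ v ∈ U, v 2 = 0 := by
      rcases hV (4 : Fin 6) with h | h
      · intro v hv
        have h2 := (hH 4 v).mp (h hv)
        have h3 := hU0 v hv
        simp [forms, h3] at h2
        exact h2
      · rcases hV (2 : Fin 6) with h' | h'
        · intro v hv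
          have := (hH 2 v).mp (h' hv)
          simpa [forms] using this
        · exfalso
          obtain ⟨u, hu, w, hw, huw⟩ := hex ![1, 0, 0]
          have h2 := (hH 4 w).mp (h hw)
          have h3 := (hH 2 w).mp (h' hw)
          have h4 := hU0 u hu
          have h5 := congrFun huw 0
          simp [forms] at h2 h3 h5
          rw [h3] at h2
          rw [h4] at h5
          simp at h2
          rw [h2] at h5
          simp at h5
    rw [eq_bot_iff]
    intro v hv
    rw [Submodule.mem_bot]
    funext i
    fin_cases i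
    · exact hU0 v hv
    · exact h1 v hv
    · exact h2 v hv
  rcases hV (0 : Fin 6) with h | h
  · exact Or.inl (key V₁ V₂ hc hV h)
  · exact Or.inr (key V₂ V₁ hc.symm (fun H => (hV H).symm) h)

/-- the line `x₀ = 0`, `x₁ = x₂` -/
def line : Submodule K (Fin 3 → K) := ⨅ H ∈ ({0, 5} : Set (Fin 6)), (arr K).hyp H

lemma mem_line (v : Fin 3 → K) : v ∈ line K ↔ v 0 = 0 ∧ v 1 = v 2 := by
  unfold line
  simp only [Submodule.mem_iInf, Set.mem_insert_iff, Set.mem_singleton_iff]
  have hH : ∀ (H : Fin 6) (v : Fin 3 → K), v ∈ (arr K).hyp H ↔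
      forms K H 0 * v 0 + forms K H 1 * v 1 + forms K H 2 * v 2 = 0 := by
    intro H v
    change forms K H ⬝ᵥ v = 0 ↔ _
    simp [dotProduct, Fin.sum_univ_three]
  constructor
  · intro h
    have h0 := (hH 0 v).mp (h 0 (Or.inl rfl))
    have h5 := (hH 5 v).mp (h 5 (Or.inr rfl))
    simp [forms] at h0 h5
    refine ⟨h0, ?_⟩
    linear_combination h5
  · rintro ⟨h0, h1⟩ H hh
    rw [hH]
    rcases hh with rfl | rfl
    · simp [forms, h0]
    · simp [forms, h1]

lemma line_le (H : Fin 6) : line K ≤ (arr K).hyp H ↔ H = 0 ∨ H = 5 := by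
  constructor
  · intro h
    have hv : (![0, 1, 1] : Fin 3 → K) ∈ line K := by
      rw [mem_line]
      simp
    have h1 := h hv
    change forms K H ⬝ᵥ ![0, 1, 1] = 0 at h1
    fin_cases H <;> simp [forms, dotProduct, Fin.sum_univ_three] at h1 ⊢
  · intro h v hv
    rw [mem_line] at hv
    change forms K H ⬝ᵥ v = 0
    rcases h with rfl | rfl
    · simp [forms, dotProduct, Fin.sum_univ_three, hv.1]
    · simp [forms, dotProduct, Fin.sum_univ_three, hv.2]

/-- the localization in coordinates: two lines in the plane, with multiplicities 2 and 1 -/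
def loc : MultiArr K 2 where
  ι := Fin 2
  fin := inferInstance
  form := ![![1, 0], ![0, 1]]
  ne_zero := by
    intro H h
    have h0 := congrFun h 0
    have h1 := congrFun h 1
    fin_cases H <;> simp at h0 h1
  distinct := by
    intro H H' h
    have a1 := h ![0, 1]
    have a2 := h ![1, 0]
    fin_cases H <;> fin_cases H' <;> simp [dotProduct, Fin.sum_univ_two] at a1 a2 ⊢
  mult := ![2, 1]

lemma loc_isLocalization : IsLocalization (arr K) (line K) (loc K) := by
  refine ⟨LinearMap.mk ⟨fun v => ![v 0, v 1 - v 2], ?_⟩ ?_, ?_, ?_, ?_, ?_, ?_⟩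
  · intro v w
    funext i
    fin_cases i
    · simp
    · simp
      ring
  · intro c v
    funext i
    fin_cases i
    · simp
    · simp
      ring
  · refine ⟨fun i : Fin 2 => ⟨(![0, 5] : Fin 2 → Fin 6) i, ?_⟩,
      fun H => (![0, 1, 1, 1, 1, 1] : Fin 6 → Fin 2) H.1, ?_, ?_⟩
    · change Fin 2 at i
      rw [line_le]
      fin_cases i
      · exact Or.inl rfl
      · exact Or.inr rfl
    · intro i
      change Fin 2 at i
      fin_cases i
      · rfl
      · rfl
    · rintro ⟨H, hH⟩
      change Fin 6 at H
      replace hH := (line_le K H).mp hH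
      apply Subtype.ext
      rcases hH with rfl | rfl
      · rfl
      · rfl
  · intro v
    refine ⟨![v 0, v 1, 0], ?_⟩
    funext i
    fin_cases i
    · simp
    · simp
  · ext v
    rw [LinearMap.mem_ker, mem_line]
    constructor
    · intro h
      have h0 := congrFun h 0
      have h1 := congrFun h 1
      simp at h0 h1
      exact ⟨h0, by linear_combination h1⟩
    · rintro ⟨h0, h1⟩
      funext i
      fin_cases i
      · simpa using h0
      · simp [h1]
  · intro H v
    change Fin 2 at H
    fin_cases H
    · change (![1, 0] : Fin 2 → K) ⬝ᵥ ![v 0, v 1 - v 2] = (![1, 0, 0] : Fin 3 → K) ⬝ᵥ v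
      simp [dotProduct, Fin.sum_univ_two, Fin.sum_univ_three]
    · change (![0, 1] : Fin 2 → K) ⬝ᵥ ![v 0, v 1 - v 2] = (![0, 1, -1] : Fin 3 → K) ⬝ᵥ v
      simp [dotProduct, Fin.sum_univ_two, Fin.sum_univ_three]
      ring
  · intro H
    change Fin 2 at H
    fin_cases H
    · rfl
    · rfl

omit [CharZero K] in
lemma appl_const {r : ℕ} (v a : Fin r → K) : appl (fun i => C (v i)) a = C (a ⬝ᵥ v) := by
  unfold appl dotProduct
  rw [map_sum]
  simp only [C_mul]

lemma not_admits {r : ℕ} (B : MultiArr K r) (hB : IsLocalization (arr K) (line K) B) :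
    ¬ AdmitsUniversal B := by
  obtain ⟨π, e, -, -, hform, hmult⟩ := hB
  rintro ⟨θ, -, -, ⟨d, hd⟩, -, hinj, hsurj⟩
  set H1 : B.ι := e.symm ⟨(0 : Fin 6), (line_le K 0).mpr (Or.inl rfl)⟩ with hH1
  have eH1 : (e H1).1 = (0 : Fin 6) := by rw [hH1, e.apply_symm_apply]
  have mH1 : B.mult H1 = 2 := by
    rw [hmult, eH1]
    rfl
  have hall : ∀ H : B.ι, H = H1 ∨ B.mult H = 1 := by
    intro H
    have h1 := (line_le K (e H).1).mp (e H).2
    rcases h1 with h1 | h1
    · left
      rw [hH1, Equiv.eq_symm_apply]
      exact Subtype.ext h1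
    · right
      rw [hmult, h1]
      rfl
  have hmem : ∀ η : Der K r, MemD B (fun H => B.mult H - 1) η ↔
      lin (B.form H1) ∣ appl η (B.form H1) := by
    intro η
    constructor
    · intro h
      have := h H1
      simpa [mH1] using this
    · intro h H
      rcases hall H with rfl | h1
      · simpa [mH1] using h
      · simp [h1]
  set v : Fin r → K := π ![0, 1, 0] with hv
  set w : Fin r → K := π ![1, 0, 0] with hw
  have fv : B.form H1 ⬝ᵥ v = 0 := by
    rw [hv, hform, eH1]
    simp [arr, forms, dotProduct, Fin.sum_univ_three]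
  have fw : B.form H1 ⬝ᵥ w = 1 := by
    rw [hw, hform, eH1]
    simp [arr, forms, dotProduct, Fin.sum_univ_three]
  have hv0 : v ≠ 0 := by
    intro h0
    have h5 := hform (e.symm ⟨(5 : Fin 6), (line_le K 5).mpr (Or.inr rfl)⟩) ![0, 1, 0]
    rw [← hv, h0, e.apply_symm_apply] at h5
    simp [arr, forms, dotProduct, Fin.sum_univ_three] at h5
  -- the constant derivation `v` is in the image
  obtain ⟨φ, hφ⟩ := (hsurj (fun i => C (v i))).mp (by
    rw [hmem, appl_const, fv]
    simp)
  have hhom : ∀ i j, (pderiv j (θ i)).IsHomogeneous (d - 1) := fun i j => (hd i).pderiv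
  have hd1 : d - 1 = 0 := by
    by_contra hne
    apply hv0
    funext i
    have h1 := congrFun hφ i
    have h2 := congrArg constantCoeff h1
    simp only [nabla, map_sum, map_mul, constantCoeff_C] at h2
    rw [← h2]
    apply Finset.sum_eq_zero
    intro j _
    have h3 : constantCoeff (pderiv j (θ i)) = 0 := by
      rw [constantCoeff_eq]
      apply (hhom i j).coeff_eq_zero
      simpa using fun h => hne h.symm
    rw [h3, mul_zero]
  have hconst : ∀ i j, pderiv j (θ i) = C (constantCoeff (pderiv j (θ i))) := by
    intro i j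
    have h1 := hhom i j
    rw [hd1] at h1
    have h2 := totalDegree_eq_zero_iff_eq_C.mp (Nat.le_zero.mp h1.totalDegree_le)
    rw [constantCoeff_eq]
    exact h2
  set M : Matrix (Fin r) (Fin r) K := fun i j => constantCoeff (pderiv j (θ i)) with hM
  have hnab : ∀ u : Fin r → K, nabla (fun i => C (u i)) θ = fun i => C (M.mulVec u i) := by
    intro u
    funext i
    unfold nabla
    simp only [Matrix.mulVec, dotProduct, map_sum, C_mul]
    apply Finset.sum_congr rfl
    intro j _
    rw [hconst i j]
    simp only [hM, mul_comm]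
  have hMinj : Function.Injective M.mulVec := by
    intro u u' h
    have h1 : (fun φ : Der K r => nabla φ θ) (fun i => C (u i)) =
        (fun φ : Der K r => nabla φ θ) (fun i => C (u' i)) := by
      simp only [hnab, h]
    have h2 := hinj h1
    funext i
    exact C_injective _ _ (congrFun h2 i)
  have hMsurj : Function.Surjective M.mulVec := by
    exact (LinearMap.injective_iff_surjective (f := M.mulVecLin)).mp hMinj
  obtain ⟨u, hu⟩ := hMsurj w
  have h1 : MemD B (fun H => B.mult H - 1) (fun i => C (w i)) := by
    rw [hsurj]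
    exact ⟨fun i => C (u i), by rw [hnab, hu]⟩
  rw [hmem, appl_const, fw] at h1
  have h2 : constantCoeff (lin (B.form H1)) ∣ constantCoeff (C (1 : K) : MvPolynomial (Fin r) K) :=
    map_dvd constantCoeff h1
  have h3 : constantCoeff (lin (B.form H1)) = 0 := by
    unfold lin
    simp
  rw [h3, constantCoeff_C] at h2
  exact one_ne_zero (zero_dvd_iff.mp h2)

end example_

/-- **Universal derivations need not localize.** Over every field of characteristic zero there are
an (irreducible) multiarrangement with positive multiplicities admitting a universal derivation and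
an intersection `X` of its hyperplanes such that the localization at `X`, which exists as an
arrangement in coordinates of the quotient space, admits no universal derivation, in any
coordinates. -/
theorem result (K : Type) [Field K] [CharZero K] :
    ∃ (n : ℕ) (A : MultiArr K n), (∀ H, 1 ≤ A.mult H) ∧ IsIrreducible A ∧ AdmitsUniversal A ∧
      ∃ X : Submodule K (Fin n → K), IsFlat A X ∧
        (∃ (r : ℕ) (B : MultiArr K r), IsLocalization A X B) ∧
        ∀ (r : ℕ) (B : MultiArr K r), IsLocalization A X B → ¬ AdmitsUniversal B := by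
  refine ⟨3, arr K, ?_, arr_irreducible K, admits K, line K, ⟨({0, 5} : Set (Fin 6)), rfl⟩,
    ⟨2, loc K, loc_isLocalization K⟩, fun r B hB => not_admits K B hB⟩
  intro H
  change Fin 6 at H
  fin_cases H <;> simp [arr]

end Pool.Agent.Results.MP_63137b_co.Counterexample
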